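import Pool.Agent.H5.EF.Stm

open Set Filter Topology

namespace H53.EFp

open H5.EF

theorem nl_restrict {m : ℕ} {p c R R' : ℝ} {u v : ℝ → ℝ} (h : NL m p c R u v) (hR : R' ≤ R) :
    NL m p c R' u v :=
  ⟨h.y0, h.z0, h.cy.mono (Icc_subset_Icc_right hR), h.cz.mono (Icc_subset_Icc_right hR),
    fun r hr => h.dy r ⟨hr.1, hr.2.trans_le hR⟩, fun r hr => h.dz r ⟨hr.1, hr.2.trans_le hR⟩⟩

theorem nl_unique (hL : S_LIPG) {m : ℕ} {p c R : ℝ} {u v u' v' : ℝ → ℝ} (hm : 1 ≤ m) (hp : 1 < p)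
    (hc : 0 ≤ c) (hR : 0 < R) (h : NL m p c R u v) (h' : NL m p c R u' v') :
    ∀ r ∈ Icc 0 R, u r = u' r ∧ v r = v' r := by
  obtain ⟨C, -, hC⟩ := hL m p (c + 1) R hm hp (by linarith) hR
  intro r hr
  obtain ⟨h1, h2⟩ := hC c c u v u' v' hc (by linarith) hc (by linarith) h h' r hr
  rw [sub_self, abs_zero, mul_zero] at h1 h2
  exact ⟨sub_eq_zero.1 (abs_eq_zero.1 (le_antisymm h1 (abs_nonneg _))),
    sub_eq_zero.1 (abs_eq_zero.1 (le_antisymm h2 (abs_nonneg _)))⟩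

theorem sol_nl {n : ℕ} {p α R : ℝ} {u : ℝ → ℝ} (hn : 2 ≤ n) (h : IsSolution n p α u) :
    ∃ v : ℝ → ℝ, NL (n - 1) p α R u v := by
  obtain ⟨v, h0, h1, h2, h3, h4⟩ := h
  refine ⟨v, h0, h1, ?_, h2.mono Icc_subset_Ici_self, ?_, ?_⟩
  · intro r hr
    exact ((h3 r hr.1).continuousWithinAt).mono Icc_subset_Ici_self
  · intro r hr
    exact (h3 r hr.1.le).hasDerivAt (Ici_mem_nhds hr.1)
  · intro r hr
    refine (h4 r hr.1).congr_deriv ?_
    unfold hh ff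
    have : ((n - 1 : ℕ) : ℝ) = (n : ℝ) - 1 := by
      rw [Nat.cast_sub (by omega)]; simp
    rw [this]

theorem t_GLO (hN : S_NLE) (hL : S_LIPG) : S_GLO := by
  intro n p hn hp
  have hm : 1 ≤ n - 1 := by omega
  have hcast : ((n - 1 : ℕ) : ℝ) = (n : ℝ) - 1 := by
    rw [Nat.cast_sub (by omega)]; simp
  refine ⟨fun α hα => ?_, ?_, ?_⟩
  · have hex : ∀ k : ℕ, ∃ u v : ℝ → ℝ, NL (n - 1) p α (k + 1) u v := fun k =>
      hN (n - 1) p α (k + 1) hm hp hα (by positivity)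
    choose Y Z hYZ using hex
    have hag : ∀ (k l : ℕ) (r : ℝ), 0 ≤ r → r ≤ k + 1 → r ≤ l + 1 → Y k r = Y l r ∧ Z k r = Z l r := by
      intro k l r h0 hk hl
      have hmin : (0 : ℝ) < min ((k : ℝ) + 1) ((l : ℝ) + 1) := by positivity
      exact nl_unique hL hm hp hα.le hmin (nl_restrict (hYZ k) (min_le_left _ _))
        (nl_restrict (hYZ l) (min_le_right _ _)) r ⟨h0, le_min hk hl⟩
    set u : ℝ → ℝ := fun r => Y ⌈r⌉₊ r with hu
    set v : ℝ → ℝ := fun r => Z ⌈r⌉₊ r with hv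
    have hK : ∀ (K : ℕ) (r : ℝ), 0 ≤ r → r ≤ K + 1 → u r = Y K r ∧ v r = Z K r := by
      intro K r h0 hr
      exact hag ⌈r⌉₊ K r h0 ((Nat.le_ceil r).trans (by linarith)) hr
    have hlt : ∀ r : ℝ, r < (⌈r⌉₊ : ℝ) + 1 := fun r => (Nat.le_ceil r).trans_lt (by linarith)
    have hevI : ∀ r : ℝ, 0 ≤ r → ∀ᶠ t in 𝓝[Ici 0] r, u t = Y ⌈r⌉₊ t ∧ v t = Z ⌈r⌉₊ t := by
      intro r hr
      have h1 : ∀ᶠ t in 𝓝[Ici 0] r, t < (⌈r⌉₊ : ℝ) + 1 :=
        mem_nhdsWithin_of_mem_nhds (Iio_mem_nhds (hlt r))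
      filter_upwards [h1, self_mem_nhdsWithin] with t h2 h3
      exact hK _ t h3 h2.le
    have hev : ∀ r : ℝ, 0 < r → ∀ᶠ t in 𝓝 r, u t = Y ⌈r⌉₊ t ∧ v t = Z ⌈r⌉₊ t := by
      intro r hr
      have := hevI r hr.le
      rwa [nhdsWithin_eq_nhds.2 (Ici_mem_nhds hr)] at this
    have hIcc : ∀ r : ℝ, 0 ≤ r → 𝓝[Ici 0] r ≤ 𝓝[Icc 0 ((⌈r⌉₊ : ℝ) + 1)] r := by
      intro r hr
      refine nhdsWithin_le_of_mem ?_
      filter_upwards [self_mem_nhdsWithin, mem_nhdsWithin_of_mem_nhds (Iio_mem_nhds (hlt r))]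
        with t h1 h2
      exact ⟨h1, le_of_lt h2⟩
    have hcz : ∀ r : ℝ, 0 ≤ r → ContinuousWithinAt v (Ici 0) r := by
      intro r hr
      have h1 : ContinuousWithinAt (Z ⌈r⌉₊) (Ici 0) r :=
        ((hYZ ⌈r⌉₊).cz r ⟨hr, (hlt r).le⟩).mono_left (hIcc r hr)
      exact h1.congr_of_eventuallyEq ((hevI r hr).mono fun t ht => ht.2)
        (hK _ r hr (hlt r).le).2
    refine ⟨u, v, ?_, ?_, fun r hr => hcz r hr, ?_, ?_⟩
    · rw [(hK 0 0 le_rfl (by positivity)).1]; exact (hYZ 0).y0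
    · rw [(hK 0 0 le_rfl (by positivity)).2]; exact (hYZ 0).z0
    · intro r hr
      rcases hr.eq_or_lt with h0 | h0
      · subst h0
        have hY := hYZ 0
        have h1 : HasDerivWithinAt (Y 0) (Z 0 0) (Ici 0) 0 := by
          have hs : Ioo (0 : ℝ) 1 ∈ 𝓝[>] (0 : ℝ) := Ioo_mem_nhdsGT one_pos
          have hd : ∀ x ∈ Ioo (0 : ℝ) 1, HasDerivAt (Y 0) (Z 0 x) x := fun x hx =>
            hY.dy x ⟨hx.1, by simpa using hx.2⟩
          refine hasDerivWithinAt_Ici_of_tendsto_deriv (s := Ioo 0 1)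
            (fun x hx => (hd x hx).differentiableAt.differentiableWithinAt) ?_ hs ?_
          · exact (hY.cy 0 ⟨le_rfl, by positivity⟩).mono fun x hx => ⟨hx.1.le, by
              simpa using hx.2.le⟩
          · have h2 : Tendsto (Z 0) (𝓝[>] 0) (𝓝 (Z 0 0)) := by
              have h3 := hY.cz 0 ⟨le_rfl, by positivity⟩
              refine h3.mono_left ?_
              refine nhdsWithin_le_of_mem ?_
              filter_upwards [hs] with x hx
              exact ⟨hx.1.le, by simpa using hx.2.le⟩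
            refine h2.congr' ?_
            filter_upwards [hs] with x hx
            exact (hd x hx).deriv.symm
        have h2 := (hK 0 0 le_rfl (by positivity))
        rw [h2.2]
        refine h1.congr_of_eventuallyEq ?_ h2.1
        have h3 := hevI 0 le_rfl
        rw [Nat.ceil_zero] at h3
        exact h3.mono fun t ht => ht.1
      · have h1 := (hYZ ⌈r⌉₊).dy r ⟨h0, hlt r⟩
        have h2 := h1.congr_of_eventuallyEq ((hev r h0).mono fun t ht => ht.1)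
        rw [(hK _ r h0.le (hlt r).le).2]
        exact h2.hasDerivWithinAt
    · intro r h0
      have h1 := (hYZ ⌈r⌉₊).dz r ⟨h0, hlt r⟩
      have h2 := h1.congr_of_eventuallyEq ((hev r h0).mono fun t ht => ht.2)
      refine h2.congr_deriv ?_
      obtain ⟨e1, e2⟩ := hK _ r h0.le (hlt r).le
      rw [e1, e2]
      unfold hh ff
      rw [hcast]
  · intro α u w hα hu hw r hr
    obtain ⟨v, hv⟩ := sol_nl (R := r + 1) hn hu
    obtain ⟨v', hv'⟩ := sol_nl (R := r + 1) hn hw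
    exact (nl_unique hL hm hp hα.le (by linarith) hv hv' r ⟨hr, by linarith⟩).1
  · intro α R u _ hu
    exact sol_nl hn hu

end H53.EFp
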