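import Pool.Agent.H5.EF.Stm

open Set Filter Topology

namespace H53.EFp

open H5.EF

noncomputable def pj (γ x : ℝ) : ℝ := max (-γ) (min γ x)

theorem pj_abs {γ x : ℝ} (hγ : 0 ≤ γ) : |pj γ x| ≤ γ :=
  abs_le.2 ⟨le_max_left _ _, max_le (by linarith) (min_le_left _ _)⟩

theorem pj_of_abs {γ x : ℝ} (h : |x| ≤ γ) : pj γ x = x := by
  obtain ⟨h1, h2⟩ := abs_le.1 h
  unfold pj; rw [min_eq_right h2, max_eq_right h1]

theorem pj_lip (γ x y : ℝ) : |pj γ x - pj γ y| ≤ |x - y| := by
  unfold pj
  refine (abs_max_sub_max_le_max _ _ _ _).trans ?_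
  refine max_le (by simp) ?_
  refine (abs_min_sub_min_le_max _ _ _ _).trans ?_
  exact max_le (by simp) le_rfl

theorem pj_neg {γ : ℝ} (hγ : 0 ≤ γ) (x : ℝ) : pj γ (-x) = -pj γ x := by
  unfold pj
  rcases le_total x γ with h1 | h1 <;> rcases le_total (-γ) x with h2 | h2
  · rw [min_eq_right h1, max_eq_right h2, min_eq_right (by linarith), max_eq_right (by linarith)]
  · rw [min_eq_right h1, max_eq_left h2, min_eq_left (by linarith), max_eq_right (by linarith)]
    ring
  · rw [min_eq_left h1, min_eq_right (by linarith : -x ≤ γ), max_eq_left (by linarith : -x ≤ -γ),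
      max_eq_right (by linarith : -γ ≤ γ)]
  · have h3 : γ = 0 := by linarith
    have h4 : x = 0 := by linarith
    subst h4; subst h3; simp

theorem ff_neg (p x : ℝ) : ff p (-x) = -ff p x := by
  unfold ff; rw [abs_neg]; ring

theorem ff_pos {p x : ℝ} (hx : 0 < x) : 0 < ff p x := by
  unfold ff; positivity

theorem t_NLE (hFD : S_FD) (hEX : S_EX) : S_NLE := by
  intro m p γ R hm hp hγ hR
  obtain ⟨hd, -, hlip⟩ := hFD p hp
  have hffc : Continuous (ff p) := by
    rw [continuous_iff_continuousAt]; exact fun x => (hd x).continuousAt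
  have hpjc : Continuous (pj γ) := by unfold pj; fun_prop
  set f : ℝ → ℝ := fun x => ff p (pj γ x) with hf
  have hfc : Continuous f := hffc.comp hpjc
  have hL : 0 ≤ p * γ ^ (p - 1) := by positivity
  obtain ⟨y, z, hyz⟩ := hEX m (fun _ x => f x) (p * γ ^ (p - 1)) γ R hm hR hL
    (by fun_prop) (fun r _ a b => (hlip γ _ _ (pj_abs hγ.le) (pj_abs hγ.le)).trans
      (mul_le_mul_of_nonneg_left (pj_lip γ a b) hL))
  -- the potential
  set G : ℝ → ℝ := fun x => ∫ t in (0 : ℝ)..x, f t with hG
  have hGd : ∀ x, HasDerivAt G (f x) x := fun x =>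
    intervalIntegral.integral_hasDerivAt_right (hfc.intervalIntegrable _ _)
      (hfc.stronglyMeasurableAtFilter _ _) hfc.continuousAt
  have hGc : Continuous G := by
    rw [continuous_iff_continuousAt]; exact fun x => (hGd x).continuousAt
  have hfodd : ∀ x, f (-x) = -f x := fun x => by
    simp only [hf]; rw [pj_neg hγ.le, ff_neg]
  have hGeven : ∀ x, G (-x) = G x := by
    intro x
    have h1 : ∫ t in x..(0 : ℝ), f (-t) = ∫ t in (-0 : ℝ)..(-x), f t :=
      intervalIntegral.integral_comp_neg f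
    simp only [hG]
    rw [neg_zero] at h1
    rw [← h1, intervalIntegral.integral_symm, ← intervalIntegral.integral_neg]
    refine intervalIntegral.integral_congr fun t _ => ?_
    simp only [hfodd, neg_neg]
  have hGabs : ∀ x, G |x| = G x := by
    intro x
    rcases abs_choice x with h | h <;> rw [h]
    exact hGeven x
  have hGmono : StrictMonoOn G (Ici 0) := by
    refine strictMonoOn_of_deriv_pos (convex_Ici 0) hGc.continuousOn fun x hx => ?_
    rw [interior_Ici, mem_Ioi] at hx
    rw [(hGd x).deriv]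
    refine ff_pos ?_
    unfold pj
    exact lt_max_of_lt_right (lt_min hγ hx)
  have hanti : AntitoneOn (fun r => z r ^ 2 / 2 + G (y r)) (Icc 0 R) := by
    have hde : ∀ r ∈ Ioo 0 R, HasDerivAt (fun r => z r ^ 2 / 2 + G (y r))
        (-(hh m r * z r ^ 2)) r := by
      intro r hr
      have h1 := ((hyz.dz r hr).pow 2).div_const 2
      have h2 := (hGd (y r)).comp r (hyz.dy r hr)
      refine (h1.add h2).congr_deriv ?_
      simp only [Nat.cast_ofNat]
      ring
    refine antitoneOn_of_deriv_nonpos (convex_Icc 0 R) ?_ ?_ ?_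
    · exact ((hyz.cz.pow 2).div_const 2).add (hGc.comp_continuousOn hyz.cy)
    · rw [interior_Icc]
      exact fun r hr => (hde r hr).differentiableAt.differentiableWithinAt
    · rw [interior_Icc]
      intro r hr
      rw [(hde r hr).deriv]
      have := hh_nonneg (m := m) hr.1
      have h2 : 0 ≤ hh m r * z r ^ 2 := by positivity
      linarith
  have hbd : ∀ r ∈ Icc 0 R, |y r| ≤ γ := by
    intro r hr
    by_contra hcon
    push Not at hcon
    have h1 := hanti (left_mem_Icc.2 hR.le) hr hr.1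
    simp only [hyz.y0, hyz.z0] at h1
    have h2 := hGmono (mem_Ici.2 hγ.le) (mem_Ici.2 (abs_nonneg (y r))) hcon
    rw [hGabs] at h2
    have h3 : 0 ≤ z r ^ 2 / 2 := by positivity
    norm_num at h1
    linarith
  refine ⟨y, z, ?_⟩
  refine ⟨hyz.y0, hyz.z0, hyz.cy, hyz.cz, hyz.dy, fun r hr => ?_⟩
  have h1 := hyz.dz r hr
  simp only [hf] at h1
  rw [pj_of_abs (hbd r ⟨hr.1.le, hr.2.le⟩)] at h1
  exact h1

theorem t_LNE (hEX : S_EX) : S_LNE := by
  intro m p γ R u v hm hp hR huv
  have hp1 : (0 : ℝ) ≤ p - 1 := by linarith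
  have hc : ContinuousOn (fun r => p * |u r| ^ (p - 1)) (Icc 0 R) :=
    ((huv.cy.abs).rpow_const (fun _ _ => Or.inr hp1)).const_mul p |>.congr (fun _ _ => rfl)
  obtain ⟨C, hC⟩ := isCompact_Icc.exists_bound_of_continuousOn hc
  have hC0 : 0 ≤ C := (norm_nonneg _).trans (hC 0 (left_mem_Icc.2 hR.le))
  obtain ⟨φ, ψ, h⟩ := hEX m (fun r x => p * |u r| ^ (p - 1) * x) C 1 R hm hR hC0 (by
      refine ContinuousOn.mul ?_ continuousOn_snd
      exact hc.comp continuousOn_fst fun q hq => hq.1)
    (fun r hr x y => by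
      rw [← mul_sub, abs_mul]
      gcongr
      exact hC r hr)
  exact ⟨φ, ψ, h⟩

end H53.EFp
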